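import Mathlib
import Pool.Agent.H40.S36.Def

/-!
# Order 3^6 (MP_460e77_co): at least 18 six-point fibres for a nonzero row

The field `many` of `Pool.Agent.H59.T6.six_iff`. `t = 0`: in every slice of 27 points the number of
six-point fibres is at least one third of the cost, the total cost is 54. `t = 1, 2`: a slice of 24
points without empty fibres and fibres of three points has a six-point fibre.
-/

set_option autoImplicit false

namespace Pool.Agent.H19.T6

open Finset H40.S36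

variable {V X D : Type*}

theorem card_six [Fintype V] (S : V → Finset X) (ev : D → X → ZMod 3) (x : D) :
    ((univ : Finset (V × ZMod 3)).filter (fun q => fib S ev q.1 x q.2 = 6)).card =
      ∑ v, ∑ c, if fib S ev v x c = 6 then 1 else 0 := by
  rw [Finset.card_filter, Fintype.sum_prod_type]

theorem sum3 (f : ZMod 3 → ℕ) : ∑ c, f c = f 0 + f 1 + f 2 := Fin.sum_univ_three f

theorem sum_fib (S : V → Finset X) (ev : D → X → ZMod 3) (v : V) (x : D) :
    fib S ev v x 0 + fib S ev v x 1 + fib S ev v x 2 = (S v).card := by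
  have h := Finset.card_eq_sum_card_fiberwise (f := fun p => ev x p) (s := S v)
    (t := (univ : Finset (ZMod 3))) (fun _ _ => by simp)
  rw [h]
  exact (sum3 (fun c => fib S ev v x c)).symm

private lemma num27 {f g h : ℕ} (f3 : 3 ∣ f) (g3 : 3 ∣ g) (h3 : 3 ∣ h) (f0 : f ≠ 0) (g0 : g ≠ 0)
    (h0 : h ≠ 0) (fn : f ≠ 3) (gn : g ≠ 3) (hn : h ≠ 3) (hs : f + g + h = 27) :
    f ^ 2 + g ^ 2 + h ^ 2 ≤ 243 +
      27 * ((if f = 6 then 1 else 0) + (if g = 6 then 1 else 0) + (if h = 6 then 1 else 0)) := by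
  obtain ⟨a, rfl⟩ := f3
  obtain ⟨b, rfl⟩ := g3
  obtain ⟨c, rfl⟩ := h3
  have ha : 2 ≤ a := by omega
  have hb : 2 ≤ b := by omega
  have hc : 2 ≤ c := by omega
  have ha' : a ≤ 5 := by omega
  have hb' : b ≤ 5 := by omega
  have hcc : c = 9 - a - b := by omega
  subst hcc
  interval_cases a <;> interval_cases b <;> simp_all

/-- `t = 0` -/
theorem many0 [Fintype V] [AddCommGroup D] {S : V → Finset X} {ev : D → X → ZMod 3}
    {Φ : D → D → D → D → ZMod 3} {D1 : AddSubgroup D}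
    (hV : Fintype.card V = 27) (h27 : ∀ v, (S v).card = 27)
    (fib3 : ∀ v x c, 3 ∣ fib S ev v x c) (fibne : ∀ v x c, fib S ev v x c ≠ 3)
    (empt : ∀ v x c, NZ Φ x → fib S ev v x c ≠ 0) (nz1 : ∀ x, NZ Φ x → x ∉ D1)
    (hsq : ∀ x, x ∉ D1 → ∑ v, ∑ c, fib S ev v x c ^ 2 = 7047) :
    ∀ x, NZ Φ x → 18 ≤ ((univ : Finset (V × ZMod 3)).filter
      (fun q => fib S ev q.1 x q.2 = 6)).card := by
  intro x hx
  rw [card_six]
  have h1 : ∀ v, ∑ c, fib S ev v x c ^ 2 ≤
      243 + 27 * ∑ c, (if fib S ev v x c = 6 then 1 else 0) := by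
    intro v
    rw [sum3, sum3]
    exact num27 (fib3 v x 0) (fib3 v x 1) (fib3 v x 2) (empt v x 0 hx) (empt v x 1 hx)
      (empt v x 2 hx) (fibne v x 0) (fibne v x 1) (fibne v x 2)
      ((sum_fib S ev v x).trans (h27 v))
  have h2 : ∑ v, ∑ c, fib S ev v x c ^ 2 ≤
      ∑ v : V, (243 + 27 * ∑ c, (if fib S ev v x c = 6 then 1 else 0)) :=
    Finset.sum_le_sum fun v _ => h1 v
  rw [hsq x (nz1 x hx), Finset.sum_add_distrib, ← Finset.mul_sum, Finset.sum_const,
    Finset.card_univ, hV] at h2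
  simp only [smul_eq_mul] at h2
  omega

private lemma num24 {f g h : ℕ} (f3 : 3 ∣ f) (g3 : 3 ∣ g) (h3 : 3 ∣ h) (f0 : f ≠ 0) (g0 : g ≠ 0)
    (h0 : h ≠ 0) (fn : f ≠ 3) (gn : g ≠ 3) (hn : h ≠ 3) (hs : f + g + h = 24) :
    f = 6 ∨ g = 6 ∨ h = 6 := by
  omega

/-- `t = 1, 2` -/
theorem many12 [Fintype V] {S : V → Finset X} {ev : D → X → ZMod 3}
    {Φ : D → D → D → D → ZMod 3}
    (h24 : 18 ≤ (Finset.univ.filter (fun v => (S v).card = 24)).card)
    (fib3 : ∀ v x c, 3 ∣ fib S ev v x c) (fibne : ∀ v x c, fib S ev v x c ≠ 3)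
    (empt : ∀ v x c, NZ Φ x → fib S ev v x c ≠ 0) :
    ∀ x, NZ Φ x → 18 ≤ ((univ : Finset (V × ZMod 3)).filter
      (fun q => fib S ev q.1 x q.2 = 6)).card := by
  intro x hx
  refine h24.trans ?_
  rw [card_six, Finset.card_filter]
  refine Finset.sum_le_sum fun v _ => ?_
  split_ifs with hv
  · have e3 := num24 (fib3 v x 0) (fib3 v x 1) (fib3 v x 2) (empt v x 0 hx) (empt v x 1 hx)
      (empt v x 2 hx) (fibne v x 0) (fibne v x 1) (fibne v x 2)
      ((sum_fib S ev v x).trans hv)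
    obtain ⟨c, hc⟩ : ∃ c, fib S ev v x c = 6 := by
      rcases e3 with h | h | h
      exacts [⟨0, h⟩, ⟨1, h⟩, ⟨2, h⟩]
    have := Finset.single_le_sum (f := fun c => if fib S ev v x c = 6 then 1 else 0)
      (fun _ _ => Nat.zero_le _) (mem_univ c)
    simpa [hc] using this
  · exact Nat.zero_le _

end Pool.Agent.H19.T6
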